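import Pool.Agent.Q229.TR.Main1

set_option autoImplicit false

/-!
# FO+MOD transductions of graph classes are stronger than FO transductions
-/

namespace Pool.Agent.Results.MP_e18332_lc.ModSeparation

open Q229.TR

/-- The formulas of FO+MOD: in every modulo-counting quantifier `∃^{a mod b}` we have `a < b`. -/
def IsFOMOD {B U : Type} : {k : ℕ} → Fm B U k → Prop
  | _, .bin _ _ _ => True
  | _, .eq _ _ => True
  | _, .un _ _ => True
  | _, .neg φ => IsFOMOD φ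
  | _, .and φ ψ => IsFOMOD φ ∧ IsFOMOD ψ
  | _, .or φ ψ => IsFOMOD φ ∧ IsFOMOD ψ
  | _, .all φ => IsFOMOD φ
  | _, .ex φ => IsFOMOD φ
  | _, .modq a b φ => a < b ∧ IsFOMOD φ

/-- A transduction: `m` unary predicates, and the formulas `ν(x)` and `η(x, y)`. -/
structure Transduction where
  /-- the number of the unary predicates -/
  m : ℕ
  /-- the formula for the vertices -/
  ν : Fm Unit (Fin m) 1
  /-- the formula for the edges -/
  η : Fm Unit (Fin m) 2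

/-- FO-transductions. -/
def Transduction.IsFO (T : Transduction) : Prop := T.ν.IsFO ∧ T.η.IsFO

/-- The graph which the transduction produces from the graph `G` with the colouring `c`. -/
def Transduction.out (T : Transduction) {V : Type} (G : SimpleGraph V)
    (c : Fin T.m → V → Prop) : SimpleGraph {v : V // Sat (fun _ => G.Adj) c T.ν ![v]} where
  Adj u v := u ≠ v ∧ Sat (fun _ => G.Adj) c T.η ![u.1, v.1] ∧
    Sat (fun _ => G.Adj) c T.η ![v.1, u.1]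
  symm := ⟨fun _ _ h => ⟨h.1.symm, h.2.2, h.2.1⟩⟩
  loopless := ⟨fun _ h => h.1 rfl⟩

/-- Finite graphs (every finite graph is isomorphic to such a graph). -/
abbrev FinGraph : Type := Σ n : ℕ, SimpleGraph (Fin n)

/-- Classes of finite graphs are sets which are closed under isomorphisms. -/
def IsClass (𝒞 : Set FinGraph) : Prop :=
  ∀ G ∈ 𝒞, ∀ H : FinGraph, Nonempty (G.2 ≃g H.2) → H ∈ 𝒞

/-- Every graph of the class `𝒟` is isomorphic to a graph produced by `T` from a graph of `𝒞`. -/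
def Transduces (T : Transduction) (𝒞 𝒟 : Set FinGraph) : Prop :=
  ∀ H ∈ 𝒟, ∃ G ∈ 𝒞, ∃ c : Fin T.m → Fin G.1 → Prop, Nonempty (T.out G.2 c ≃g H.2)

/-- The transduction without unary predicates whose formula `ν` is always true and whose formula `η`
says that `x` and `y` are adjacent and have an even number of common neighbours. -/
def evenT : Transduction where
  m := 0
  ν := .eq 0 0
  η := .and (.bin () 0 1) (.modq 0 2 (.and (.bin () 0 2) (.bin () 1 2)))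

/-- The graph of the pairs of points in a common block. -/
def coG (l : Lv) : SimpleGraph (Fin (2 ^ l.k)) where
  Adj := Co l.blk l.S
  symm := ⟨fun _ _ ⟨h, B, h1, h2⟩ => ⟨h.symm, B, h2, h1⟩⟩
  loopless := ⟨fun _ h => h.1 rfl⟩

theorem HS_symm {l : Lv} {x y : Fin (2 ^ l.k)} (h : HS l.blk l.S x y) : HS l.blk l.S y x := by
  obtain ⟨⟨h1, B, h2, h3⟩, h4⟩ := h
  refine ⟨⟨h1.symm, B, h3, h2⟩, ?_⟩
  have h5 : ∀ z, (Co l.blk l.S y z ∧ Co l.blk l.S x z) ↔ (Co l.blk l.S x z ∧ Co l.blk l.S y z) :=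
    fun z => and_comm
  simp only [h5]
  exact h4

/-- The graph of the even blocks. -/
def hsG (l : Lv) : SimpleGraph (Fin (2 ^ l.k)) where
  Adj := HS l.blk l.S
  symm := ⟨fun _ _ h => HS_symm h⟩
  loopless := ⟨fun _ h => h.1.1 rfl⟩

theorem evenT_out (l : Lv) (c : Fin evenT.m → Fin (2 ^ l.k) → Prop) :
    Nonempty (evenT.out (coG l) c ≃g hsG l) := by
  refine ⟨⟨⟨fun v => v.1, fun v => ⟨v, rfl⟩, fun v => rfl, fun v => rfl⟩, ?_⟩⟩
  intro u v
  have key : ∀ x y : Fin (2 ^ l.k), Sat (fun _ => (coG l).Adj) c evenT.η ![x, y] ↔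
      HS l.blk l.S x y := by
    intro x y
    have h1 : ∀ z : Fin (2 ^ l.k), Sat (fun _ => (coG l).Adj) c
        (.and (.bin () 0 2) (.bin () 1 2)) (Fin.snoc ![x, y] z : Fin 3 → Fin (2 ^ l.k)) ↔
        Co l.blk l.S x z ∧ Co l.blk l.S y z := fun z => Iff.rfl
    change Co l.blk l.S x y ∧ Nat.card {z // Sat (fun _ => (coG l).Adj) c
        (.and (.bin () 0 2) (.bin () 1 2)) (Fin.snoc ![x, y] z : Fin 3 → Fin (2 ^ l.k))} ≡ 0
          [MOD 2] ↔ _
    simp only [h1]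
    rw [HS, Nat.even_iff]
    exact Iff.rfl
  change HS l.blk l.S u.1 v.1 ↔ u ≠ v ∧ _ ∧ _
  rw [key, key]
  constructor
  · intro h
    exact ⟨fun he => h.1.1 (congrArg Subtype.val he), h, HS_symm h⟩
  · intro h
    exact h.2.1

/-- **FO+MOD-transductions are stronger than FO-transductions.** There are infinite classes `𝒞`, `𝒟`
of finite graphs such that `𝒟` is an FO+MOD-transduction of `𝒞`, by the transduction `evenT`, but not
an FO-transduction of `𝒞`. -/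
theorem result : ∃ 𝒞 𝒟 : Set FinGraph, IsClass 𝒞 ∧ IsClass 𝒟 ∧ 𝒞.Infinite ∧ 𝒟.Infinite ∧
    (IsFOMOD evenT.ν ∧ IsFOMOD evenT.η ∧ Transduces evenT 𝒞 𝒟) ∧
    ¬ ∃ T : Transduction, T.IsFO ∧ Transduces T 𝒞 𝒟 := by
  obtain ⟨f, hf, hn⟩ := exists_seq
  have hk : StrictMono fun i => (f i).k := strictMono_nat_of_lt_succ fun i =>
    (hn i (i + 1) (Nat.lt_succ_self i)).k
  have hinf : ∀ (𝒞 : Set FinGraph) (F : (i : ℕ) → SimpleGraph (Fin (2 ^ (f i).k))),
      (∀ i, (⟨2 ^ (f i).k, F i⟩ : FinGraph) ∈ 𝒞) → 𝒞.Infinite := by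
    intro 𝒞 F h
    refine Set.infinite_of_injective_forall_mem (f := fun i => (⟨2 ^ (f i).k, F i⟩ : FinGraph))
      ?_ h
    intro i j hij
    have h1 : 2 ^ (f i).k = 2 ^ (f j).k := congrArg Sigma.fst hij
    exact hk.injective (Nat.pow_right_injective le_rfl h1)
  refine ⟨{G | ∃ i, Nonempty (coG (f i) ≃g G.2)}, {H | ∃ i, Nonempty (hsG (f i) ≃g H.2)}, ?_, ?_,
    hinf _ (fun i => coG (f i)) fun i => ⟨i, ⟨SimpleGraph.Iso.refl⟩⟩,
    hinf _ (fun i => hsG (f i)) fun i => ⟨i, ⟨SimpleGraph.Iso.refl⟩⟩, ⟨trivial, ?_, ?_⟩, ?_⟩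
  · rintro G ⟨i, ⟨e⟩⟩ H ⟨e'⟩
    exact ⟨i, ⟨e.trans e'⟩⟩
  · rintro G ⟨i, ⟨e⟩⟩ H ⟨e'⟩
    exact ⟨i, ⟨e.trans e'⟩⟩
  · exact ⟨trivial, by norm_num, trivial, trivial⟩
  · rintro H ⟨i, ⟨e⟩⟩
    obtain ⟨e'⟩ := evenT_out (f i) (fun _ _ => True)
    exact ⟨⟨2 ^ (f i).k, coG (f i)⟩, ⟨i, ⟨SimpleGraph.Iso.refl⟩⟩, _, ⟨e'.trans e⟩⟩
  · rintro ⟨T, hT, hTr⟩
    obtain ⟨i, hi⟩ := not_out hf hn T.η hT.2
    obtain ⟨G, ⟨j, ⟨e⟩⟩, c, ⟨e'⟩⟩ := hTr ⟨2 ^ (f i).k, hsG (f i)⟩ ⟨i, ⟨SimpleGraph.Iso.refl⟩⟩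
    refine hi j (Fin G.1) G.2.Adj e.symm.toEquiv (fun x y => ?_) c _ e'.symm.toEquiv
      fun x y => ?_
    · exact (e.symm.map_adj_iff).symm
    · exact (e'.symm.map_adj_iff).symm

end Pool.Agent.Results.MP_e18332_lc.ModSeparation
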